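import Pool.Agent.Y604.AP.Main

/-!
Affine polynomial projection is hard for the existential theory of the reals, already for
polynomials of degree four.
-/

open Pool.Agent.NPC Pool.Agent.NPC.ER

theorem Pool.Agent.Results.MP_ca1301_lc.AffineProjectionHard.result :
    ∀ D : ℕ∞, 4 ≤ D → ERHard (lang (Pool.Agent.Y604.AP.AffineProjection D)) :=
  Pool.Agent.NPC.Y604AP.hard
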